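import Pool.Agent.H785R2.ABC.A345
import Pool.Agent.H785R2.ABC.A12

/-! Counting lemmas for the exceptional set of the abc inequality for `q` points. -/

namespace Pool.Agent.H255Z.Abc

open Finset Pool.Agent.H785R2.ABC

/-- sum of the reciprocals of the radicals -/
noncomputable def GG (Y : ℕ) : ℝ := ∑ d ∈ Icc 1 Y, (1 : ℝ) / (rad d : ℝ)

theorem GG_le (ε : ℝ) (hε : 0 < ε) : ∃ D : ℝ, 0 < D ∧ ∀ Y : ℕ, 1 ≤ Y → GG Y ≤ D * (Y : ℝ) ^ ε := by
  obtain ⟨D, hD, h⟩ := stmtA3_of stmtA2 ε hε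
  refine ⟨D, hD, fun Y hY => ?_⟩
  have := h Y hY 1 le_rfl
  simpa [GG] using this

theorem GG_nonneg (Y : ℕ) : 0 ≤ GG Y := Finset.sum_nonneg fun _ _ => by positivity

theorem radR_pos (n : ℕ) : (0 : ℝ) < rad n := by exact_mod_cast rad_pos' n

theorem rad_dvd (n : ℕ) : rad n ∣ n := Nat.prod_primeFactors_dvd n

theorem exc_dvd {n : ℕ} (hn : n ≠ 0) : (n / rad n) * rad (n / rad n) ∣ n := by
  have h1 : n / rad n ∣ n := Nat.div_dvd_of_dvd (rad_dvd n)
  have h2 : rad (n / rad n) ∣ rad n :=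
    Finset.prod_dvd_prod_of_subset _ _ _ (Nat.primeFactors_mono h1 hn)
  exact (Nat.mul_dvd_mul_left _ h2).trans (dvd_of_eq (Nat.div_mul_cancel (rad_dvd n)))

theorem prod_dvd_of_gcd {ι : Type*} [DecidableEq ι] (s : Finset ι) (d : ι → ℕ) (N Δ : ℕ)
    (h1 : ∀ i ∈ s, d i ∣ N) (h2 : ∀ i ∈ s, ∀ j ∈ s, i ≠ j → Nat.gcd (d i) (d j) ∣ Δ) :
    ∏ i ∈ s, d i ∣ N * Δ ^ (s.card ^ 2) := by
  induction s using Finset.induction_on with
  | empty => simp
  | insert k s hk ih =>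
    have ih' := ih (fun i hi => h1 i (mem_insert_of_mem hi))
      (fun i hi j hj => h2 i (mem_insert_of_mem hi) j (mem_insert_of_mem hj))
    have g1 : ∀ t ⊆ s, Nat.gcd (d k) (∏ i ∈ t, d i) ∣ Δ ^ t.card := by
      intro t
      induction t using Finset.induction_on with
      | empty => simp
      | insert j t hj iht =>
        intro hts
        rw [Finset.prod_insert hj, Finset.card_insert_of_notMem hj, pow_succ']
        refine (Nat.gcd_mul_right_dvd_mul_gcd _ _ _).trans (Nat.mul_dvd_mul ?_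
          (iht ((Finset.subset_insert _ _).trans hts)))
        have hjs := hts (mem_insert_self _ _)
        exact h2 k (mem_insert_self _ _) j (mem_insert_of_mem hjs) (fun e => hk (e ▸ hjs))
    rw [Finset.prod_insert hk, Finset.card_insert_of_notMem hk, ← Nat.gcd_mul_lcm]
    have g2 : Nat.lcm (d k) (∏ i ∈ s, d i) ∣ N * Δ ^ (s.card ^ 2) :=
      Nat.lcm_dvd ((h1 k (mem_insert_self _ _)).mul_right _) ih'
    refine (Nat.mul_dvd_mul (g1 s subset_rfl) g2).trans ?_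
    rw [mul_left_comm, ← pow_add]
    exact Nat.mul_dvd_mul_left _ (pow_dvd_pow _ (by nlinarith))

theorem card_sep (T : Finset (ℤ × ℤ)) (s : ℤ × ℤ → ℝ) (U σ : ℝ) (hσ : 0 < σ) (hU : 0 ≤ U)
    (h1 : ∀ P ∈ T, |s P| ≤ U)
    (h2 : ∀ P ∈ T, ∀ P' ∈ T, |s P - s P'| < σ → P' = P ∨ P' = -P) :
    (T.card : ℝ) ≤ 2 * (2 * U / σ + 1) := by
  have e1 : T.card ≤ 2 * (range (⌊2 * U / σ⌋₊ + 1)).card := by
    refine Finset.card_le_mul_card_image_of_maps_to (f := fun P => ⌊(s P + U) / σ⌋₊) ?_ 2 ?_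
    · intro P hP
      rw [mem_range, Nat.lt_succ_iff]
      refine Nat.floor_le_floor (div_le_div_of_nonneg_right ?_ hσ.le)
      linarith [(abs_le.1 (h1 P hP)).2]
    · intro k _
      rcases (T.filter fun P => ⌊(s P + U) / σ⌋₊ = k).eq_empty_or_nonempty with h | ⟨P, hP⟩
      · rw [h]; simp
      refine le_trans (Finset.card_le_card (t := {P, -P}) fun P' hP' => ?_) Finset.card_le_two
      rw [mem_filter] at hP hP'
      have a1 : 0 ≤ (s P + U) / σ := div_nonneg (by linarith [(abs_le.1 (h1 P hP.1)).1]) hσ.le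
      have a2 : 0 ≤ (s P' + U) / σ := div_nonneg (by linarith [(abs_le.1 (h1 P' hP'.1)).1]) hσ.le
      have b1 := Nat.floor_le a1
      have b2 := Nat.floor_le a2
      have c1 := Nat.lt_floor_add_one ((s P + U) / σ)
      have c2 := Nat.lt_floor_add_one ((s P' + U) / σ)
      rw [hP.2] at b1 c1
      rw [hP'.2] at b2 c2
      rw [le_div_iff₀ hσ] at b1 b2
      rw [div_lt_iff₀ hσ] at c1 c2
      have := h2 P hP.1 P' hP'.1 (abs_lt.2 ⟨by linarith, by linarith⟩)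
      simpa using this
  have e2 : (T.card : ℝ) ≤ 2 * ((⌊2 * U / σ⌋₊ : ℝ) + 1) := by
    rw [card_range] at e1; exact_mod_cast e1
  have e3 := Nat.floor_le (by positivity : 0 ≤ 2 * U / σ)
  linarith

theorem sum_tuples (q Y : ℕ) :
    ∑ e ∈ Fintype.piFinset (fun _ : Fin q => Icc 1 Y), ∏ i, (1 : ℝ) / (rad (e i) : ℝ) =
      GG Y ^ q := by
  rw [← Finset.prod_univ_sum (fun _ : Fin q => Icc 1 Y) (fun _ d => (1 : ℝ) / (rad d : ℝ))]
  simp [GG]

theorem sum_int (Y : ℕ) : ∑ u ∈ (Icc (-(Y : ℤ)) Y).filter (fun u => u ≠ 0),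
    (1 : ℝ) / (rad u.natAbs : ℝ) ≤ 2 * GG Y := by
  have h : (Icc (-(Y : ℤ)) Y).filter (fun u => u ≠ 0) ⊆
      (Icc 1 Y).image (fun n : ℕ => (n : ℤ)) ∪ (Icc 1 Y).image (fun n : ℕ => -(n : ℤ)) := by
    intro u hu
    simp only [mem_filter, mem_Icc, mem_union, mem_image] at hu ⊢
    rcases le_total 0 u with h | h
    · exact Or.inl ⟨u.natAbs, by omega, by omega⟩
    · exact Or.inr ⟨u.natAbs, by omega, by omega⟩
  refine (Finset.sum_le_sum_of_subset_of_nonneg h fun _ _ _ => by positivity).trans ?_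
  have h2 := Finset.sum_union_inter (s₁ := (Icc 1 Y).image (fun n : ℕ => (n : ℤ)))
    (s₂ := (Icc 1 Y).image (fun n : ℕ => -(n : ℤ))) (f := fun u => (1 : ℝ) / (rad u.natAbs : ℝ))
  rw [Finset.sum_image (fun a _ b _ h => by simpa using h),
    Finset.sum_image (fun a _ b _ h => by simpa using h)] at h2
  simp only [Int.natAbs_neg, Int.natAbs_natCast] at h2
  have h3 : 0 ≤ ∑ u ∈ (Icc 1 Y).image (fun n : ℕ => (n : ℤ)) ∩
      (Icc 1 Y).image (fun n : ℕ => -(n : ℤ)), (1 : ℝ) / (rad u.natAbs : ℝ) :=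
    Finset.sum_nonneg fun _ _ => by positivity
  unfold GG
  linarith

theorem greedy {q : ℕ} (hq : 2 ≤ q) (t : Fin q → ℝ) (W T : ℝ) (hW : 1 ≤ W) (ht : ∀ i, 1 ≤ t i)
    (hT : T ≤ W ^ 2) (h1 : T ≤ ∏ i, t i) (h2 : ∀ i j, i ≠ j → t i * t j < W ^ 2) :
    ∃ I : Finset (Fin q), T ≤ ∏ i ∈ I, t i ∧ ∏ i ∈ I, t i ≤ W ^ 3 := by
  classical
  have : Nonempty (Fin q) := ⟨⟨0, by omega⟩⟩
  obtain ⟨I, hI, hmin⟩ := Finset.exists_min_image
    (univ.filter fun I : Finset (Fin q) => T ≤ ∏ i ∈ I, t i) Finset.card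
    ⟨univ, mem_filter.2 ⟨mem_univ _, h1⟩⟩
  refine ⟨I, (mem_filter.1 hI).2, ?_⟩
  have hW3 : W ^ 2 ≤ W ^ 3 := pow_le_pow_right₀ hW (by norm_num)
  by_cases hc : I.card ≤ 1
  · rcases Finset.card_le_one_iff_subset_singleton.1 hc with ⟨i, hi⟩
    rcases Finset.subset_singleton_iff.1 hi with rfl | rfl
    · simpa using one_le_pow₀ hW
    · obtain ⟨j, hj⟩ := Fintype.exists_ne_of_one_lt_card (by simp; omega) i
      have := h2 i j hj.symm
      rw [Finset.prod_singleton]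
      nlinarith [ht i, ht j]
  · obtain ⟨i, hi, j, hj, hij⟩ := Finset.one_lt_card.1 (not_le.1 hc)
    have key : ∀ i ∈ I, t i ≤ W → ∏ i ∈ I, t i ≤ W ^ 3 := by
      intro i hi hti
      have a1 : ∏ k ∈ I.erase i, t k < T := by
        by_contra hcon
        have := hmin (I.erase i) (mem_filter.2 ⟨mem_univ _, not_lt.1 hcon⟩)
        have := Finset.card_erase_lt_of_mem hi
        omega
      rw [← Finset.mul_prod_erase I _ hi, pow_succ' W 2]
      exact mul_le_mul hti (a1.le.trans hT)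
        (Finset.prod_nonneg fun k _ => by linarith [ht k]) (by linarith)
    by_cases c : t i ≤ W
    · exact key i hi c
    · refine key j hj ?_
      have := h2 i j hij
      by_contra c'
      nlinarith

end Pool.Agent.H255Z.Abc
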