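import Pool.Agent.H255Z.Abc.A

namespace Pool.Agent.H255Z.Abc

open Finset Pool.Agent.H785R2.ABC

/-- the configuration of `q` distinct rational points with coordinates bounded by `A` -/
structure Conf {q : ℕ} (a b : Fin q → ℤ) (A : ℕ) : Prop where
  one : 1 ≤ A
  ha : ∀ i, |a i| ≤ A
  hb : ∀ i, |b i| ≤ A
  cop : ∀ i, IsCoprime (a i) (b i)
  ne : ∀ i j, i ≠ j → a i * b j - a j * b i ≠ 0

/-- the linear forms -/
def LL {q : ℕ} (a b : Fin q → ℤ) (i : Fin q) (P : ℤ × ℤ) : ℤ := P.1 * b i - P.2 * a i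

/-- the naive height -/
def HH (P : ℤ × ℤ) : ℤ := max |P.1| |P.2|

variable {q : ℕ} {a b : Fin q → ℤ} {A : ℕ}

theorem LL_le (h : Conf a b A) (i : Fin q) (P : ℤ × ℤ) : |LL a b i P| ≤ 2 * A * HH P := by
  have h1 : |P.1| ≤ HH P := le_max_left _ _
  have h2 : |P.2| ≤ HH P := le_max_right _ _
  have h3 := mul_le_mul h1 (h.hb i) (abs_nonneg _) ((abs_nonneg _).trans h1)
  have h4 := mul_le_mul h2 (h.ha i) (abs_nonneg _) ((abs_nonneg _).trans h1)
  have h5 := abs_sub (P.1 * b i) (P.2 * a i)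
  rw [abs_mul, abs_mul] at h5
  unfold LL
  linarith

theorem HH_le (h : Conf a b A) {i j : Fin q} (hij : i ≠ j) (P : ℤ × ℤ) :
    HH P ≤ A * (|LL a b i P| + |LL a b j P|) := by
  have h0 : 1 ≤ |a i * b j - a j * b i| := Int.one_le_abs (h.ne i j hij)
  have key : ∀ (x u v : ℤ), |u| ≤ A → |v| ≤ A →
      (a i * b j - a j * b i) * x = u * LL a b j P - v * LL a b i P →
      |x| ≤ A * (|LL a b i P| + |LL a b j P|) := by
    intro x u v hu hv e
    have h5 := abs_sub (u * LL a b j P) (v * LL a b i P)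
    rw [← e, abs_mul, abs_mul, abs_mul] at h5
    have h6 := mul_le_mul_of_nonneg_right hu (abs_nonneg (LL a b j P))
    have h7 := mul_le_mul_of_nonneg_right hv (abs_nonneg (LL a b i P))
    have h8 := mul_le_mul_of_nonneg_right h0 (abs_nonneg x)
    linarith
  exact max_le (key _ _ _ (h.ha i) (h.ha j) (by unfold LL; ring))
    (key _ _ _ (h.hb i) (h.hb j) (by unfold LL; ring))

theorem LL_inj (h : Conf a b A) {i j : Fin q} (hij : i ≠ j) {P P' : ℤ × ℤ}
    (h1 : LL a b i P = LL a b i P') (h2 : LL a b j P = LL a b j P') : P = P' := by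
  have e1 : (a i * b j - a j * b i) * P.1 = (a i * b j - a j * b i) * P'.1 := by
    unfold LL at h1 h2; linear_combination a i * h2 - a j * h1
  have e2 : (a i * b j - a j * b i) * P.2 = (a i * b j - a j * b i) * P'.2 := by
    unfold LL at h1 h2; linear_combination b i * h2 - b j * h1
  exact Prod.ext (mul_left_cancel₀ (h.ne i j hij) e1) (mul_left_cancel₀ (h.ne i j hij) e2)

theorem dvd_of_cop {x y d z : ℤ} (h : IsCoprime x y) (h1 : d ∣ z * x) (h2 : d ∣ z * y) : d ∣ z := by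
  obtain ⟨u, v, e⟩ := h
  have : z = u * (z * x) + v * (z * y) := by linear_combination (-z) * e
  rw [this]
  exact dvd_add (h1.mul_left _) (h2.mul_left _)

theorem eq_or_neg {P P' : ℤ × ℤ} (h : IsCoprime P.1 P.2) (h' : IsCoprime P'.1 P'.2)
    (e : P.1 * P'.2 - P'.1 * P.2 = 0) : P' = P ∨ P' = -P := by
  obtain ⟨u, v, e1⟩ := h
  obtain ⟨u', v', e2⟩ := h'
  have a1 : P'.1 = (u * P'.1 + v * P'.2) * P.1 := by linear_combination (-P'.1) * e1 - v * e
  have a2 : P'.2 = (u * P'.1 + v * P'.2) * P.2 := by linear_combination (-P'.2) * e1 + u * e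
  have a3 : (u * P'.1 + v * P'.2) * (u' * P.1 + v' * P.2) = 1 := by
    linear_combination e2 - u' * a1 - v' * a2
  rcases Int.eq_one_or_neg_one_of_mul_eq_one a3 with c | c
  · left; rw [c, one_mul] at a1 a2; exact Prod.ext a1 a2
  · right; rw [c, neg_one_mul] at a1 a2; exact Prod.ext a1 a2

theorem det_ge (h : Conf a b A) (d : Fin q → ℕ) {P P' : ℤ × ℤ} (hP : IsCoprime P.1 P.2)
    (h1 : ∀ i, (d i : ℤ) ∣ LL a b i P) (h2 : ∀ i, (d i : ℤ) ∣ LL a b i P')
    (hne : P.1 * P'.2 - P'.1 * P.2 ≠ 0) :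
    ∏ i, d i ≤ (P.1 * P'.2 - P'.1 * P.2).natAbs * (2 * A ^ 2).factorial ^ (q ^ 2) := by
  have := prod_dvd_of_gcd univ d (P.1 * P'.2 - P'.1 * P.2).natAbs (2 * A ^ 2).factorial
    (fun i _ => by
      rw [← Int.natCast_dvd]
      refine dvd_of_cop (h.cop i) ?_ ?_
      · have : (P.1 * P'.2 - P'.1 * P.2) * a i = LL a b i P * P'.1 - LL a b i P' * P.1 := by
          unfold LL; ring
        rw [this]; exact dvd_sub ((h1 i).mul_right _) ((h2 i).mul_right _)
      · have : (P.1 * P'.2 - P'.1 * P.2) * b i = LL a b i P * P'.2 - LL a b i P' * P.2 := by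
          unfold LL; ring
        rw [this]; exact dvd_sub ((h1 i).mul_right _) ((h2 i).mul_right _))
    (fun i _ j _ hij => by
      have g1 : ((Nat.gcd (d i) (d j) : ℕ) : ℤ) ∣ LL a b i P :=
        (Int.natCast_dvd_natCast.2 (Nat.gcd_dvd_left _ _)).trans (h1 i)
      have g2 : ((Nat.gcd (d i) (d j) : ℕ) : ℤ) ∣ LL a b j P :=
        (Int.natCast_dvd_natCast.2 (Nat.gcd_dvd_right _ _)).trans (h1 j)
      have g3 : ((Nat.gcd (d i) (d j) : ℕ) : ℤ) ∣ a i * b j - a j * b i := by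
        refine dvd_of_cop hP ?_ ?_
        · have : (a i * b j - a j * b i) * P.1 = a i * LL a b j P - a j * LL a b i P := by
            unfold LL; ring
          rw [this]; exact dvd_sub (g2.mul_left _) (g1.mul_left _)
        · have : (a i * b j - a j * b i) * P.2 = b i * LL a b j P - b j * LL a b i P := by
            unfold LL; ring
          rw [this]; exact dvd_sub (g2.mul_left _) (g1.mul_left _)
      refine (Int.natCast_dvd.1 g3).trans (Nat.dvd_factorial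
        (Int.natAbs_pos.2 (h.ne i j hij)) ?_)
      have h5 := abs_sub (a i * b j) (a j * b i)
      rw [abs_mul, abs_mul] at h5
      have h3 := mul_le_mul (h.ha i) (h.hb j) (abs_nonneg _) (Nat.cast_nonneg _)
      have h4 := mul_le_mul (h.ha j) (h.hb i) (abs_nonneg _) (Nat.cast_nonneg _)
      zify
      nlinarith)
  rw [card_univ, Fintype.card_fin] at this
  exact Nat.le_of_dvd (Nat.mul_pos (Int.natAbs_pos.2 hne) (pow_pos (Nat.factorial_pos _) _)) this

theorem class_bound (h : Conf a b A) {i j : Fin q} (hij : i ≠ j) (X : ℕ) (hX : 1 ≤ X) (V : ℝ)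
    (hV : 0 ≤ V) (d : Fin q → ℕ) (hd : ∀ l, 1 ≤ d l) (T : Finset (ℤ × ℤ))
    (hT : ∀ P ∈ T, IsCoprime P.1 P.2 ∧ HH P ≤ X ∧ ((|LL a b i P| : ℤ) : ℝ) ≤ V ∧
      (X : ℤ) ≤ 4 * A * |LL a b j P| ∧ ∀ l, (d l : ℤ) ∣ LL a b l P) :
    (T.card : ℝ) ≤ 2 * (32 * (A : ℝ) ^ 3 * ((2 * A ^ 2).factorial : ℝ) ^ (q ^ 2) * V * X /
      ∏ l, (d l : ℝ) + 1) := by
  set Δ : ℝ := ((2 * A ^ 2).factorial : ℝ) ^ (q ^ 2) with hΔ
  have hΔ0 : 0 < Δ := by rw [hΔ]; exact pow_pos (by exact_mod_cast Nat.factorial_pos _) _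
  have hA : (0 : ℝ) < A := by exact_mod_cast h.one
  have hXR : (0 : ℝ) < X := by exact_mod_cast hX
  have hD : (0 : ℝ) < ∏ l, (d l : ℝ) := Finset.prod_pos fun l _ => by exact_mod_cast hd l
  have hj : ∀ P ∈ T, (X : ℝ) / (4 * A) ≤ |(LL a b j P : ℝ)| ∧ |(LL a b j P : ℝ)| ≤ 2 * A * X := by
    intro P hP
    obtain ⟨-, h2, -, h4, -⟩ := hT P hP
    constructor
    · rw [div_le_iff₀ (by positivity)]
      have : (X : ℝ) ≤ 4 * A * |(LL a b j P : ℝ)| := by exact_mod_cast h4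
      linarith
    · have : |LL a b j P| ≤ 2 * A * X :=
        (LL_le h j P).trans (mul_le_mul_of_nonneg_left h2 (by positivity))
      exact_mod_cast this
  have := card_sep T (fun P => (LL a b i P : ℝ) / (LL a b j P : ℝ)) (V * (4 * A) / X)
    ((∏ l, (d l : ℝ)) / (Δ * (2 * A * X) ^ 2)) (by positivity) (by positivity) ?_ ?_
  · refine this.trans (le_of_eq ?_)
    field_simp
    ring
  · intro P hP
    have h1 := (hj P hP).1
    have h2 : |(LL a b i P : ℝ)| ≤ V := by exact_mod_cast (hT P hP).2.2.1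
    have h3 : 0 < (X : ℝ) / (4 * A) := by positivity
    rw [abs_div]
    calc |(LL a b i P : ℝ)| / |(LL a b j P : ℝ)| ≤ V / (X / (4 * A)) := div_le_div₀ hV h2 h3 h1
      _ = V * (4 * A) / X := by field_simp
  · intro P hP P' hP' hlt
    refine eq_or_neg (hT P hP).1 (hT P' hP').1 ?_
    by_contra hne
    have h1 := det_ge h d (hT P hP).1 (hT P hP).2.2.2.2 (hT P' hP').2.2.2.2 hne
    have h2 : ∏ l, (d l : ℝ) ≤ |((P.1 * P'.2 - P'.1 * P.2 : ℤ) : ℝ)| * Δ := by
      rw [hΔ, ← Int.cast_abs, ← Nat.cast_natAbs]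
      exact_mod_cast h1
    have h3 : 0 < (X : ℝ) / (4 * A) := by positivity
    have p1 : 0 < |(LL a b j P : ℝ)| := h3.trans_le (hj P hP).1
    have p2 : 0 < |(LL a b j P' : ℝ)| := h3.trans_le (hj P' hP').1
    have e : (LL a b i P : ℝ) / (LL a b j P : ℝ) - (LL a b i P' : ℝ) / (LL a b j P' : ℝ) =
        ((P.1 * P'.2 - P'.1 * P.2 : ℤ) : ℝ) * ((a i * b j - a j * b i : ℤ) : ℝ) /
          ((LL a b j P : ℝ) * (LL a b j P' : ℝ)) := by
      rw [div_sub_div _ _ (abs_pos.1 p1) (abs_pos.1 p2)]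
      congr 1
      unfold LL; push_cast; ring
    rw [e, abs_div, abs_mul, abs_mul, div_lt_div_iff₀ (mul_pos p1 p2) (by positivity)] at hlt
    have h4 : (1 : ℝ) ≤ |((a i * b j - a j * b i : ℤ) : ℝ)| := by
      exact_mod_cast Int.one_le_abs (h.ne i j hij)
    have h5 : |(LL a b j P : ℝ)| * |(LL a b j P' : ℝ)| ≤ (2 * A * X) ^ 2 := by
      rw [sq]; exact mul_le_mul (hj P hP).2 (hj P' hP').2 p2.le (by positivity)
    have h6 := mul_le_mul h2 h5 (mul_pos p1 p2).le (by positivity)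
    have h7 := mul_le_mul_of_nonneg_left h4 (by positivity :
      0 ≤ |((P.1 * P'.2 - P'.1 * P.2 : ℤ) : ℝ)| * (Δ * (2 * A * X) ^ 2))
    nlinarith

theorem pair_bound (h : Conf a b A) {i j : Fin q} (hij : i ≠ j) (X : ℕ) (R : ℝ) (hR : 0 ≤ R)
    (T : Finset (ℤ × ℤ)) (hT : ∀ P ∈ T, HH P ≤ X ∧ LL a b i P ≠ 0 ∧ LL a b j P ≠ 0 ∧
      (rad (LL a b i P).natAbs : ℝ) * rad (LL a b j P).natAbs ≤ R) :
    (T.card : ℝ) ≤ R * (2 * GG (2 * A * X)) ^ 2 := by
  set Z := (Icc (-((2 * A * X : ℕ) : ℤ)) (2 * A * X : ℕ)).filter (fun u => u ≠ 0) with hZ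
  let g : ℤ × ℤ → ℝ := fun p => 1 / (rad p.1.natAbs : ℝ) * (1 / (rad p.2.natAbs : ℝ))
  have e1 : (T.card : ℝ) ≤ R * ∑ P ∈ T, g (LL a b i P, LL a b j P) := by
    rw [Finset.card_eq_sum_ones, Finset.mul_sum]
    push_cast
    refine Finset.sum_le_sum fun P hP => ?_
    have := (hT P hP).2.2.2
    have p1 := radR_pos (LL a b i P).natAbs
    have p2 := radR_pos (LL a b j P).natAbs
    simp only [g]
    rw [one_div_mul_one_div, mul_one_div, le_div_iff₀ (by positivity)]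
    linarith
  have e2 : ∑ P ∈ T, g (LL a b i P, LL a b j P) ≤ ∑ p ∈ Z ×ˢ Z, g p := by
    rw [← Finset.sum_image (s := T) (g := fun P => (LL a b i P, LL a b j P)) (f := g)
      (fun P _ P' _ e => LL_inj h hij (Prod.ext_iff.1 e).1 (Prod.ext_iff.1 e).2)]
    refine Finset.sum_le_sum_of_subset_of_nonneg ?_ fun _ _ _ => by positivity
    intro p hp
    obtain ⟨P, hP, rfl⟩ := mem_image.1 hp
    obtain ⟨h1, h2, h3, -⟩ := hT P hP
    have b : ∀ l, |LL a b l P| ≤ 2 * A * X := fun l =>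
      (LL_le h l P).trans (mul_le_mul_of_nonneg_left h1 (by positivity))
    simp only [hZ, mem_product, mem_filter, mem_Icc]
    push_cast
    exact ⟨⟨abs_le.1 (b i), h2⟩, abs_le.1 (b j), h3⟩
  have e3 : ∑ p ∈ Z ×ˢ Z, g p ≤ (2 * GG (2 * A * X)) ^ 2 := by
    rw [Finset.sum_product' (f := fun u v : ℤ => 1 / (rad u.natAbs : ℝ) * (1 / (rad v.natAbs : ℝ))),
      ← Finset.sum_mul_sum, ← sq]
    exact pow_le_pow_left₀ (Finset.sum_nonneg fun _ _ => by positivity) (sum_int _) 2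
  exact e1.trans (mul_le_mul_of_nonneg_left (e2.trans e3) hR)

end Pool.Agent.H255Z.Abc
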