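import Pool.Agent.H255Z.Abc.B

namespace Pool.Agent.H255Z.Abc

open Finset Pool.Agent.H785R2.ABC

variable {q : ℕ} {a b : Fin q → ℤ} {A : ℕ}

theorem classify (hq : 2 ≤ q) (h : Conf a b A) (μ B : ℝ) (hμ : μ ≤ 4 / 5) (hB : 1 ≤ B) (X : ℕ)
    (hX : 1 ≤ X) (P : ℤ × ℤ) (h1 : (X : ℤ) < 2 * HH P) (h2 : HH P ≤ X) (h3 : ∀ l, LL a b l P ≠ 0)
    (h4 : ∏ l, (rad (LL a b l P).natAbs : ℝ) ≤ B * (X : ℝ) ^ ((q : ℝ) - μ)) :
    (∃ i j, i ≠ j ∧ (rad (LL a b i P).natAbs : ℝ) * rad (LL a b j P).natAbs ≤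
      4 * (A : ℝ) ^ 2 * (X : ℝ) ^ (6 / 5 : ℝ)) ∨
    ∃ i j, i ≠ j ∧ ∃ k ∈ range (Nat.log 2 (2 * A * X) + 1),
      ∃ e ∈ Fintype.piFinset (fun _ : Fin q => Icc 1 (2 * A * X)),
        ((X : ℝ) ^ μ / B * (1 / (8 * (A : ℝ) ^ 2)) ^ q * (2 ^ k / (2 * A * X)) ≤ ∏ l, (e l : ℝ) ∧
          ∏ l, (e l : ℝ) ≤ (X : ℝ) ^ (6 / 5 : ℝ)) ∧
        ((|LL a b i P| : ℤ) : ℝ) ≤ 2 ^ (k + 1) ∧ (X : ℤ) ≤ 4 * A * |LL a b j P| ∧
        ∀ l, ((e l * rad (e l) : ℕ) : ℤ) ∣ LL a b l P := by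
  classical
  have hA : (1 : ℝ) ≤ A := by exact_mod_cast h.one
  have hXR : (1 : ℝ) ≤ X := by exact_mod_cast hX
  have hX0 : (0 : ℝ) < X := by linarith
  let n : Fin q → ℕ := fun l => (LL a b l P).natAbs
  have n1 : ∀ l, 1 ≤ n l := fun l => Int.natAbs_pos.2 (h3 l)
  have n2 : ∀ l, n l ≤ 2 * A * X := fun l => by
    have : |LL a b l P| ≤ 2 * A * X :=
      (LL_le h l P).trans (mul_le_mul_of_nonneg_left h2 (by positivity))
    zify; simpa [n] using this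
  set Y : ℝ := 2 * A * X with hY
  have hY1 : X ≤ Y := by nlinarith
  have hY0 : 0 < Y := by linarith
  have n2R : ∀ l, (n l : ℝ) ≤ Y := fun l => by rw [hY]; exact_mod_cast n2 l
  have n1R : ∀ l, (1 : ℝ) ≤ n l := fun l => by exact_mod_cast n1 l
  have r1 : ∀ l, (rad (n l) : ℝ) ≤ n l := fun l => by exact_mod_cast rad_le_self (n1 l)
  let t : Fin q → ℝ := fun l => Y / rad (n l)
  have ht : ∀ l, 1 ≤ t l := fun l => (one_le_div (radR_pos _)).2 ((r1 l).trans (n2R l))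
  set W : ℝ := (X : ℝ) ^ (2 / 5 : ℝ) with hW
  have hW1 : 1 ≤ W := Real.one_le_rpow hXR (by norm_num)
  have hW2 : W ^ 2 = (X : ℝ) ^ (4 / 5 : ℝ) := by
    rw [hW, ← Real.rpow_natCast, ← Real.rpow_mul hX0.le]; norm_num
  have hW3 : W ^ 3 = (X : ℝ) ^ (6 / 5 : ℝ) := by
    rw [hW, ← Real.rpow_natCast, ← Real.rpow_mul hX0.le]; norm_num
  by_cases hp : ∃ i j, i ≠ j ∧ W ^ 2 ≤ t i * t j
  · obtain ⟨i, j, hij, hh⟩ := hp
    refine Or.inl ⟨i, j, hij, ?_⟩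
    have p1 := radR_pos (n i)
    have p2 := radR_pos (n j)
    simp only [t] at hh
    rw [div_mul_div_comm, le_div_iff₀ (by positivity)] at hh
    have e : (X : ℝ) ^ 2 = W ^ 2 * (X : ℝ) ^ (6 / 5 : ℝ) := by
      rw [hW2, ← Real.rpow_add hX0, ← Real.rpow_natCast]; norm_num
    refine le_of_mul_le_mul_left ?_ (by positivity : 0 < W ^ 2)
    calc W ^ 2 * ((rad (n i) : ℝ) * rad (n j)) ≤ Y * Y := hh
      _ = 4 * (A : ℝ) ^ 2 * (X : ℝ) ^ 2 := by rw [hY]; ring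
      _ = _ := by rw [e]; ring
  right
  push Not at hp
  have hprod : (X : ℝ) ^ μ / B ≤ ∏ l, t l := by
    have p : 0 < ∏ l, (rad (n l) : ℝ) := Finset.prod_pos fun l _ => radR_pos _
    simp only [t]
    rw [Finset.prod_div_distrib, Finset.prod_const, card_univ, Fintype.card_fin,
      div_le_div_iff₀ (by linarith) p]
    calc (X : ℝ) ^ μ * ∏ l, (rad (n l) : ℝ) ≤ (X : ℝ) ^ μ * (B * (X : ℝ) ^ ((q : ℝ) - μ)) :=
          mul_le_mul_of_nonneg_left h4 (by positivity)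
      _ = (X : ℝ) ^ q * B := by
          rw [mul_left_comm, ← Real.rpow_add hX0, add_sub_cancel, Real.rpow_natCast, mul_comm]
      _ ≤ Y ^ q * B := mul_le_mul_of_nonneg_right (pow_le_pow_left₀ hX0.le hY1 _) (by linarith)
  obtain ⟨I, hI1, hI2⟩ := greedy hq t W ((X : ℝ) ^ μ / B) hW1 ht (by
    rw [hW2]
    exact (div_le_self (by positivity) hB).trans (Real.rpow_le_rpow_of_exponent_le hXR hμ)) hprod hp
  obtain ⟨i, -, hi⟩ := Finset.exists_min_image univ n ⟨⟨0, by omega⟩, mem_univ _⟩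
  obtain ⟨j, hj⟩ := Fintype.exists_ne_of_one_lt_card (by simp; omega) i
  have big : ∀ l, l ≠ i → (X : ℤ) ≤ 4 * A * |LL a b l P| := by
    intro l hl
    have b1 := HH_le h hl P
    have b2 : |LL a b i P| ≤ |LL a b l P| := by
      have := hi l (mem_univ _)
      zify at this; simpa [n] using this
    have b3 := mul_le_mul_of_nonneg_left b2 (Nat.cast_nonneg A : (0 : ℤ) ≤ A)
    nlinarith
  let e : Fin q → ℕ := fun l => if l ∈ I then n l / rad (n l) else 1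
  have he : ∀ l ∈ I, (e l : ℝ) = n l / rad (n l) := fun l hl => by
    simp only [e, if_pos hl]
    exact Nat.cast_div (rad_dvd _) (radR_pos _).ne'
  have hpe : ∏ l, (e l : ℝ) = (∏ l ∈ I, t l) * ∏ l ∈ I, (n l / Y) := by
    rw [← Finset.prod_mul_distrib]
    symm
    refine Finset.prod_subset_one_on_sdiff (subset_univ I) (fun l hl => ?_) (fun l hl => ?_)
    · simp [e, (mem_sdiff.1 hl).2]
    · rw [he l hl]; simp only [t]; field_simp
  have f0 : ∀ l, 0 ≤ (n l : ℝ) / Y := fun l => by positivity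
  have f1 : ∀ l, (n l : ℝ) / Y ≤ 1 := fun l => (div_le_one hY0).2 (n2R l)
  refine ⟨i, j, hj.symm, Nat.log 2 (n i), mem_range.2 (Nat.lt_succ_of_le
    (Nat.log_mono_right (n2 i))), e, Fintype.mem_piFinset.2 fun l => ?_, ⟨?_, ?_⟩, ?_, big j hj,
    fun l => ?_⟩
  · simp only [e]
    split_ifs
    · exact mem_Icc.2 ⟨Nat.div_pos (rad_le_self (n1 l)) (rad_pos' _),
        (Nat.div_le_self _ _).trans (n2 l)⟩
    · exact mem_Icc.2 ⟨le_rfl, (n1 l).trans (n2 l)⟩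
  · rw [hpe, mul_assoc]
    refine mul_le_mul hI1 ?_ (by positivity) (Finset.prod_nonneg fun l _ => by linarith [ht l])
    have g1 : ∏ l, (n l : ℝ) / Y ≤ ∏ l ∈ I, (n l / Y) :=
      Finset.prod_le_prod_of_subset_of_le_one (subset_univ I) (fun l _ => f0 l) (fun l _ _ => f1 l)
    refine le_trans ?_ g1
    rw [← Finset.mul_prod_erase univ _ (mem_univ i), mul_comm]
    have g2 : (2 : ℝ) ^ Nat.log 2 (n i) ≤ n i := by
      exact_mod_cast Nat.pow_log_le_self 2 (by have := n1 i; omega)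
    refine mul_le_mul (div_le_div_of_nonneg_right g2 hY0.le) ?_ (by positivity) (f0 i)
    have g3 : (1 / (8 * (A : ℝ) ^ 2)) ≤ 1 := by
      rw [div_le_one (by positivity)]; nlinarith
    calc (1 / (8 * (A : ℝ) ^ 2)) ^ q ≤ (1 / (8 * (A : ℝ) ^ 2)) ^ (univ.erase i).card :=
          pow_le_pow_of_le_one (by positivity) g3 (Finset.card_erase_le.trans (by simp))
      _ = ∏ _l ∈ univ.erase i, (1 / (8 * (A : ℝ) ^ 2)) := by rw [Finset.prod_const]
      _ ≤ _ := by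
          refine Finset.prod_le_prod (fun _ _ => by positivity) fun l hl => ?_
          have g4 : (X : ℝ) ≤ 4 * A * n l := by
            have := big l (Finset.ne_of_mem_erase hl)
            rw [← Int.natCast_natAbs] at this
            exact_mod_cast this
          rw [div_le_div_iff₀ (by positivity) hY0, hY]
          nlinarith
  · rw [hpe, ← hW3]
    exact (mul_le_of_le_one_right (Finset.prod_nonneg fun l _ => by linarith [ht l])
      (Finset.prod_le_one (fun l _ => f0 l) fun l _ => f1 l)).trans hI2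
  · have := Nat.lt_pow_succ_log_self (b := 2) (by norm_num) (n i)
    rw [← Int.natCast_natAbs]
    exact_mod_cast this.le
  · rw [Int.natCast_dvd]
    simp only [e]
    split_ifs
    · exact exc_dvd (by have := n1 l; omega)
    · simp [rad]

theorem dyadic (hq : 2 ≤ q) (h : Conf a b A) (μ B : ℝ) (hμ : μ ≤ 4 / 5) (hB : 1 ≤ B) :
    ∃ K : ℝ, 0 ≤ K ∧ ∀ X : ℕ, 1 ≤ X → ∀ T : Finset (ℤ × ℤ),
      (∀ P ∈ T, IsCoprime P.1 P.2 ∧ (X : ℤ) < 2 * HH P ∧ HH P ≤ X ∧ (∀ l, LL a b l P ≠ 0) ∧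
        ∏ l, (rad (LL a b l P).natAbs : ℝ) ≤ B * (X : ℝ) ^ ((q : ℝ) - μ)) →
      (T.card : ℝ) ≤ K * (X : ℝ) ^ (2 - μ) * ((Nat.log 2 (2 * A * X) + 1) * GG (2 * A * X) ^ q) := by
  classical
  set c : ℝ := 32 * (A : ℝ) ^ 3 * ((2 * A ^ 2).factorial : ℝ) ^ (q ^ 2) with hc
  have hc0 : 0 ≤ c := by positivity
  have hA : (1 : ℝ) ≤ A := by exact_mod_cast h.one
  refine ⟨(q : ℝ) ^ 2 * (16 * (A : ℝ) ^ 2 + 2 * (4 * c * A * B * (8 * (A : ℝ) ^ 2) ^ q + 1)),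
    by positivity, fun X hX T hT => ?_⟩
  have hXR : (1 : ℝ) ≤ X := by exact_mod_cast hX
  have hX0 : (0 : ℝ) < X := by linarith
  set G := GG (2 * A * X) with hG
  have hG1 : 1 ≤ G := by
    have := Finset.single_le_sum (f := fun d => (1 : ℝ) / (rad d : ℝ)) (s := Icc 1 (2 * A * X))
      (fun _ _ => by positivity) (a := 1) (mem_Icc.2 ⟨le_rfl, by nlinarith [h.one]⟩)
    have e : (1 : ℝ) / (rad 1 : ℝ) = 1 := by simp [rad]
    exact e.symm.le.trans this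
  set N := Nat.log 2 (2 * A * X) + 1 with hN
  have hpow : (X : ℝ) ^ (6 / 5 : ℝ) ≤ (X : ℝ) ^ (2 - μ) :=
    Real.rpow_le_rpow_of_exponent_le hXR (by linarith)
  let T1 : Fin q × Fin q → Finset (ℤ × ℤ) := fun p => T.filter fun P =>
    (rad (LL a b p.1 P).natAbs : ℝ) * rad (LL a b p.2 P).natAbs ≤
      4 * (A : ℝ) ^ 2 * (X : ℝ) ^ (6 / 5 : ℝ)
  let E : ℕ → Finset (Fin q → ℕ) := fun k =>
    (Fintype.piFinset (fun _ : Fin q => Icc 1 (2 * A * X))).filter fun e =>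
      (X : ℝ) ^ μ / B * (1 / (8 * (A : ℝ) ^ 2)) ^ q * (2 ^ k / (2 * A * X)) ≤ ∏ l, (e l : ℝ) ∧
          ∏ l, (e l : ℝ) ≤ (X : ℝ) ^ (6 / 5 : ℝ)
  let T2 : Fin q × Fin q → ℕ → (Fin q → ℕ) → Finset (ℤ × ℤ) := fun p k e => T.filter fun P =>
    ((|LL a b p.1 P| : ℤ) : ℝ) ≤ 2 ^ (k + 1) ∧ (X : ℤ) ≤ 4 * A * |LL a b p.2 P| ∧
        ∀ l, ((e l * rad (e l) : ℕ) : ℤ) ∣ LL a b l P
  have cover : T ⊆ (univ : Finset (Fin q)).offDiag.biUnion fun p =>
      T1 p ∪ (range N).biUnion fun k => (E k).biUnion fun e => T2 p k e := by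
    intro P hP
    obtain ⟨-, h1, h2, h3, h4⟩ := hT P hP
    simp only [mem_biUnion, mem_union, mem_offDiag, mem_univ, true_and]
    rcases classify hq h μ B hμ hB X hX P h1 h2 h3 h4 with ⟨i, j, hij, hh⟩ |
      ⟨i, j, hij, k, hk, e, he, he', hh⟩
    · exact ⟨(i, j), hij, Or.inl (mem_filter.2 ⟨hP, hh⟩)⟩
    · exact ⟨(i, j), hij, Or.inr ⟨k, hk, e, mem_filter.2 ⟨he, he'⟩, mem_filter.2 ⟨hP, hh⟩⟩⟩
  have b1 : ∀ p : Fin q × Fin q, p.1 ≠ p.2 →
      ((T1 p).card : ℝ) ≤ 16 * (A : ℝ) ^ 2 * (X : ℝ) ^ (2 - μ) * (N * G ^ q) := by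
    intro p hp
    refine (pair_bound h hp X (4 * (A : ℝ) ^ 2 * (X : ℝ) ^ (6 / 5 : ℝ)) (by positivity) (T1 p)
      fun P hP => ?_).trans ?_
    · obtain ⟨hP1, hP2⟩ := mem_filter.1 hP
      obtain ⟨-, -, h2, h3, -⟩ := hT P hP1
      exact ⟨h2, h3 _, h3 _, hP2⟩
    · have g1 : G ^ 2 ≤ N * G ^ q := by
        have : (1 : ℝ) ≤ N := by rw [hN]; push_cast; linarith [Nat.cast_nonneg (α := ℝ) (Nat.log 2 (2 * A * X))]
        exact (pow_le_pow_right₀ hG1 hq).trans (le_mul_of_one_le_left (by positivity) this)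
      rw [← hG]
      calc 4 * (A : ℝ) ^ 2 * (X : ℝ) ^ (6 / 5 : ℝ) * (2 * G) ^ 2
          = 16 * (A : ℝ) ^ 2 * ((X : ℝ) ^ (6 / 5 : ℝ) * G ^ 2) := by ring
        _ ≤ 16 * (A : ℝ) ^ 2 * ((X : ℝ) ^ (2 - μ) * (N * G ^ q)) :=
          mul_le_mul_of_nonneg_left (mul_le_mul hpow g1 (by positivity) (by positivity))
            (by positivity)
        _ = _ := by ring
  have b2 : ∀ p : Fin q × Fin q, p.1 ≠ p.2 → ∀ k, ∀ e ∈ E k, ((T2 p k e).card : ℝ) ≤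
      2 * (4 * c * A * B * (8 * (A : ℝ) ^ 2) ^ q + 1) * (X : ℝ) ^ (2 - μ) *
        ∏ l, (1 : ℝ) / (rad (e l) : ℝ) := by
    intro p hp k e he
    obtain ⟨he1, he2, he3⟩ := mem_filter.1 he
    have e1 : ∀ l, 1 ≤ e l := fun l => (mem_Icc.1 (Fintype.mem_piFinset.1 he1 l)).1
    refine (class_bound h hp X hX (2 ^ (k + 1)) (by positivity) (fun l => e l * rad (e l))
      (fun l => Nat.mul_pos (e1 l) (rad_pos' _)) (T2 p k e) fun P hP => ?_).trans ?_
    · obtain ⟨hP1, hP2⟩ := mem_filter.1 hP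
      obtain ⟨h1, -, h2, -, -⟩ := hT P hP1
      exact ⟨h1, h2, hP2⟩
    · rw [← hc]
      push_cast
      rw [Finset.prod_mul_distrib, Finset.prod_div_distrib, Finset.prod_const_one]
      set Re := ∏ l, (rad (e l) : ℝ) with hRe
      set Pe := ∏ l, (e l : ℝ) with hPe
      have p1 : 0 < Re := Finset.prod_pos fun l _ => radR_pos _
      have p2 : Re ≤ Pe := Finset.prod_le_prod (fun l _ => (radR_pos _).le)
        fun l _ => by exact_mod_cast rad_le_self (e1 l)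
      have p3 : 0 < Pe := p1.trans_le p2
      have g1 : 1 ≤ (X : ℝ) ^ (2 - μ) * (1 / Re) := by
        rw [mul_one_div, le_div_iff₀ p1]; linarith
      have g2 : c * 2 ^ (k + 1) * X / (Pe * Re) ≤
          4 * c * A * B * (8 * (A : ℝ) ^ 2) ^ q * (X : ℝ) ^ (2 - μ) * (1 / Re) := by
        rw [mul_one_div, ← div_div, div_le_div_iff_of_pos_right p1, div_le_iff₀ p3]
        refine le_trans (le_of_eq ?_) (mul_le_mul_of_nonneg_left he2 (by positivity))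
        have : (X : ℝ) ^ (2 - μ) = X ^ 2 / X ^ μ := by
          rw [Real.rpow_sub hX0, Real.rpow_two]
        rw [this, one_div_pow]
        field_simp
        ring
      nlinarith
  have b3 : ∀ p : Fin q × Fin q, p.1 ≠ p.2 →
      (((range N).biUnion fun k => (E k).biUnion fun e => T2 p k e).card : ℝ) ≤
      2 * (4 * c * A * B * (8 * (A : ℝ) ^ 2) ^ q + 1) * (X : ℝ) ^ (2 - μ) * (N * G ^ q) := by
    intro p hp
    have g1 : (((range N).biUnion fun k => (E k).biUnion fun e => T2 p k e).card : ℝ) ≤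
        ∑ k ∈ range N, ∑ e ∈ E k, ((T2 p k e).card : ℝ) := by
      exact_mod_cast Finset.card_biUnion_le.trans
        (Finset.sum_le_sum fun k _ => Finset.card_biUnion_le)
    refine g1.trans ?_
    have g2 : ∀ k ∈ range N, ∑ e ∈ E k, ((T2 p k e).card : ℝ) ≤
        2 * (4 * c * A * B * (8 * (A : ℝ) ^ 2) ^ q + 1) * (X : ℝ) ^ (2 - μ) * G ^ q := by
      intro k _
      refine (Finset.sum_le_sum (b2 p hp k)).trans ?_
      rw [← Finset.mul_sum, hG, ← sum_tuples]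
      exact mul_le_mul_of_nonneg_left (Finset.sum_le_sum_of_subset_of_nonneg
        (Finset.filter_subset _ _) fun _ _ _ => by positivity) (by positivity)
    refine (Finset.sum_le_sum g2).trans (le_of_eq ?_)
    rw [Finset.sum_const, card_range, nsmul_eq_mul]; ring
  have g1 : (T.card : ℝ) ≤ ∑ p ∈ (univ : Finset (Fin q)).offDiag, (((T1 p).card : ℝ) +
      ((range N).biUnion fun k => (E k).biUnion fun e => T2 p k e).card) := by
    exact_mod_cast (Finset.card_le_card cover).trans (Finset.card_biUnion_le.trans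
      (Finset.sum_le_sum fun p _ => Finset.card_union_le _ _))
  refine g1.trans ((Finset.sum_le_sum fun p hp => add_le_add (b1 p (mem_offDiag.1 hp).2.2)
    (b3 p (mem_offDiag.1 hp).2.2)).trans ?_)
  rw [Finset.sum_const, nsmul_eq_mul]
  have g2 : ((univ : Finset (Fin q)).offDiag.card : ℝ) ≤ (q : ℝ) ^ 2 := by
    have := Finset.card_le_univ (univ : Finset (Fin q)).offDiag
    rw [Fintype.card_prod, Fintype.card_fin, ← sq] at this
    exact_mod_cast this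
  refine (mul_le_mul_of_nonneg_right g2 (by positivity)).trans (le_of_eq ?_)
  rw [hN]; push_cast; ring

theorem dyadic2 (hq : 2 ≤ q) (h : Conf a b A) (μ B η : ℝ) (hμ : μ ≤ 4 / 5) (hB : 1 ≤ B)
    (hη : 0 < η) : ∃ K : ℝ, 0 ≤ K ∧ ∀ X : ℕ, 1 ≤ X → ∀ T : Finset (ℤ × ℤ),
      (∀ P ∈ T, IsCoprime P.1 P.2 ∧ (X : ℤ) < 2 * HH P ∧ HH P ≤ X ∧ (∀ l, LL a b l P ≠ 0) ∧
        ∏ l, (rad (LL a b l P).natAbs : ℝ) ≤ B * (X : ℝ) ^ ((q : ℝ) - μ)) →
      (T.card : ℝ) ≤ K * (X : ℝ) ^ (2 - μ + η) := by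
  obtain ⟨K, hK, H⟩ := dyadic hq h μ B hμ hB
  set ε := η / (q + 1) with hε
  have hε0 : 0 < ε := by positivity
  obtain ⟨D, hD, hG⟩ := GG_le ε hε0
  refine ⟨K * ((2 / ε + 1) * D ^ q * (2 * A : ℝ) ^ η), by positivity, fun X hX T hT => ?_⟩
  refine (H X hX T hT).trans ?_
  have hXR : (0 : ℝ) < X := by exact_mod_cast hX
  have hY : 1 ≤ 2 * A * X := by nlinarith [h.one]
  set Y := 2 * A * X with hYd
  have hYR : (1 : ℝ) ≤ Y := by exact_mod_cast hY
  have g0 : 1 ≤ (Y : ℝ) ^ ε := Real.one_le_rpow hYR hε0.le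
  have g1 : (Nat.log 2 Y : ℝ) + 1 ≤ (2 / ε + 1) * (Y : ℝ) ^ ε := by
    have a1 : (2 : ℝ) ^ Nat.log 2 Y ≤ Y := by exact_mod_cast Nat.pow_log_le_self 2 (by omega)
    have a2 := Real.log_le_log (by positivity) a1
    rw [Real.log_pow] at a2
    have a3 := Real.log_le_rpow_div (by linarith : (0 : ℝ) ≤ Y) hε0
    have a4 := Real.log_two_gt_d9
    have a5 : (0 : ℝ) ≤ Nat.log 2 Y := Nat.cast_nonneg _
    have a6 : 2 / ε * (Y : ℝ) ^ ε = 2 * ((Y : ℝ) ^ ε / ε) := by ring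
    nlinarith
  have g2 : GG Y ^ q ≤ (D * (Y : ℝ) ^ ε) ^ q := pow_le_pow_left₀ (GG_nonneg _) (hG Y hY) _
  have g3 : (Y : ℝ) ^ ε * ((Y : ℝ) ^ ε) ^ q = (2 * A : ℝ) ^ η * (X : ℝ) ^ η := by
    rw [← pow_succ', ← Real.rpow_natCast, ← Real.rpow_mul (by linarith), hε,
      ← Real.mul_rpow (by positivity) hXR.le, hYd]
    push_cast
    rw [div_mul_cancel₀ _ (by positivity)]
  have g4 := mul_le_mul g1 g2 (pow_nonneg (GG_nonneg _) _) (by positivity)
  rw [Real.rpow_add hXR]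
  calc K * (X : ℝ) ^ (2 - μ) * ((Nat.log 2 Y + 1) * GG Y ^ q)
      ≤ K * (X : ℝ) ^ (2 - μ) * ((2 / ε + 1) * (Y : ℝ) ^ ε * (D * (Y : ℝ) ^ ε) ^ q) :=
        mul_le_mul_of_nonneg_left g4 (by positivity)
    _ = K * (X : ℝ) ^ (2 - μ) * ((2 / ε + 1) * D ^ q * ((Y : ℝ) ^ ε * ((Y : ℝ) ^ ε) ^ q)) := by
        rw [mul_pow]; ring
    _ = _ := by rw [g3]; ring

theorem HH_pos {P : ℤ × ℤ} (h : IsCoprime P.1 P.2) : 1 ≤ HH P := by
  rcases h.ne_zero_or_ne_zero with c | c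
  · exact (Int.one_le_abs c).trans (le_max_left _ _)
  · exact (Int.one_le_abs c).trans (le_max_right _ _)

theorem total (hq : 2 ≤ q) (h : Conf a b A) (μ B η : ℝ) (hμ : μ ≤ 4 / 5) (hB : 1 ≤ B)
    (hη : 0 < η) : ∃ K : ℝ, ∀ X : ℕ, ∀ T : Finset (ℤ × ℤ),
      (∀ P ∈ T, IsCoprime P.1 P.2 ∧ HH P ≤ X ∧ (∀ l, LL a b l P ≠ 0) ∧
        ∏ l, (rad (LL a b l P).natAbs : ℝ) ≤ B * (HH P : ℝ) ^ ((q : ℝ) - μ)) →
      (T.card : ℝ) ≤ K * (X : ℝ) ^ (2 - μ + η) := by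
  classical
  obtain ⟨K, hK, H⟩ := dyadic2 hq h μ B η hμ hB hη
  refine ⟨2 * K, fun X => ?_⟩
  induction X using Nat.strong_induction_on with
  | _ X ih =>
  intro T hT
  rcases Nat.eq_zero_or_pos X with rfl | hX
  · have : T = ∅ := Finset.eq_empty_of_forall_notMem fun P hP => by
      have := HH_pos (hT P hP).1
      have := (hT P hP).2.1
      omega
    rw [this]; simp only [card_empty, Nat.cast_zero]; positivity
  have a1 := H X hX (T.filter fun P => (X : ℤ) < 2 * HH P) fun P hP => by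
    obtain ⟨hP1, hP2⟩ := mem_filter.1 hP
    obtain ⟨h1, h2, h3, h4⟩ := hT P hP1
    refine ⟨h1, hP2, h2, h3, h4.trans (mul_le_mul_of_nonneg_left ?_ (by linarith))⟩
    have : (2 : ℝ) ≤ q := by exact_mod_cast hq
    refine Real.rpow_le_rpow ?_ (by exact_mod_cast h2) (by linarith)
    exact_mod_cast zero_le_one.trans (HH_pos h1)
  have a2 := ih (X / 2) (by omega) (T.filter fun P => ¬ (X : ℤ) < 2 * HH P) fun P hP => by
    obtain ⟨hP1, hP2⟩ := mem_filter.1 hP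
    obtain ⟨h1, h2, h3, h4⟩ := hT P hP1
    exact ⟨h1, by omega, h3, h4⟩
  have a3 : (T.card : ℝ) = (T.filter fun P => (X : ℤ) < 2 * HH P).card +
      (T.filter fun P => ¬ (X : ℤ) < 2 * HH P).card := by
    exact_mod_cast (Finset.card_filter_add_card_filter_not _).symm
  have a4 : ((X / 2 : ℕ) : ℝ) ^ (2 - μ + η) ≤ (X : ℝ) ^ (2 - μ + η) / 2 := by
    refine (Real.rpow_le_rpow (Nat.cast_nonneg _) Nat.cast_div_le (by linarith)).trans ?_
    rw [Real.div_rpow (Nat.cast_nonneg _) (Nat.cast_nonneg _)]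
    refine div_le_div_of_nonneg_left (by positivity) (by norm_num) ?_
    have := Real.rpow_le_rpow_of_exponent_le (by norm_num : (1 : ℝ) ≤ 2)
      (by linarith : 1 ≤ 2 - μ + η)
    simpa using this
  have a5 := mul_le_mul_of_nonneg_left a4 hK
  linarith

theorem main (q : ℕ) (hq : 2 ≤ q) (α : Fin q → ℤ × ℤ) (hcop : ∀ l, IsCoprime (α l).1 (α l).2)
    (hne : ∀ i j, i ≠ j → (α i).1 * (α j).2 - (α i).2 * (α j).1 ≠ 0) (S : Finset ℕ)
    (κ C η : ℝ) (hη : 0 < η) : ∃ D : ℝ, ∀ X : ℕ,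
      ({x : ℤ × ℤ | IsCoprime x.1 x.2 ∧ |x.1| ≤ X ∧ |x.2| ≤ X ∧
        (∀ l, x.1 * (α l).2 - x.2 * (α l).1 ≠ 0) ∧
        (∑ l, ∑ p ∈ (x.1 * (α l).2 - x.2 * (α l).1).natAbs.primeFactors \ S, Real.log p) + C <
          ((q : ℝ) - κ) * Real.log ((max |x.1| |x.2| : ℤ) : ℝ)}.ncard : ℝ) ≤
        D * (X : ℝ) ^ (max (2 - κ) (6 / 5) + η) := by
  classical
  let A : ℕ := 1 + ∑ l, ((α l).1.natAbs + (α l).2.natAbs)
  have hA : ∀ l, (α l).1.natAbs + (α l).2.natAbs ≤ A := fun l =>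
    (Finset.single_le_sum (f := fun l => (α l).1.natAbs + (α l).2.natAbs)
      (fun _ _ => Nat.zero_le _) (mem_univ l)).trans (Nat.le_add_left _ _)
  have h : Conf (fun l => (α l).1) (fun l => (α l).2) A :=
    ⟨Nat.le_add_right _ _, fun l => by have := hA l; rw [Int.abs_eq_natAbs]; omega,
      fun l => by have := hA l; rw [Int.abs_eq_natAbs]; omega, hcop,
      fun i j hij => by rw [mul_comm (α j).1]; exact hne i j hij⟩
  set sS : ℝ := ∑ p ∈ S, Real.log p with hsS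
  obtain ⟨K, H⟩ := total hq h (min κ (4 / 5)) (Real.exp |q * sS - C|) η (min_le_right _ _)
    (Real.one_le_exp (abs_nonneg _)) hη
  refine ⟨K, fun X => ?_⟩
  have e : max (2 - κ) (6 / 5) = 2 - min κ (4 / 5) := by
    rcases le_total κ (4 / 5) with c | c
    · rw [min_eq_left c, max_eq_left (by linarith)]
    · rw [min_eq_right c, max_eq_right (by linarith)]; norm_num
  rw [e]
  set E := {x : ℤ × ℤ | IsCoprime x.1 x.2 ∧ |x.1| ≤ X ∧ |x.2| ≤ X ∧
        (∀ l, x.1 * (α l).2 - x.2 * (α l).1 ≠ 0) ∧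
        (∑ l, ∑ p ∈ (x.1 * (α l).2 - x.2 * (α l).1).natAbs.primeFactors \ S, Real.log p) + C <
          ((q : ℝ) - κ) * Real.log ((max |x.1| |x.2| : ℤ) : ℝ)} with hE
  have hfin : E.Finite := by
    refine (Finset.finite_toSet (Icc (-(X : ℤ)) X ×ˢ Icc (-(X : ℤ)) X)).subset ?_
    rintro x ⟨-, h1, h2, -⟩
    simp only [coe_product, coe_Icc, Set.mem_prod, Set.mem_Icc]
    exact ⟨abs_le.1 h1, abs_le.1 h2⟩
  rw [Set.ncard_eq_toFinset_card E hfin]
  refine H X _ fun P hP => ?_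
  obtain ⟨h1, h2, h3, h4, h5⟩ := hfin.mem_toFinset.1 hP
  refine ⟨h1, max_le h2 h3, h4, ?_⟩
  have hH : (1 : ℝ) ≤ (HH P : ℝ) := by exact_mod_cast HH_pos h1
  have hl : 0 ≤ Real.log (HH P : ℝ) := Real.log_nonneg hH
  have p : 0 < ∏ l, (rad (LL (fun l => (α l).1) (fun l => (α l).2) l P).natAbs : ℝ) :=
    Finset.prod_pos fun l _ => radR_pos _
  rw [← Real.exp_log p, Real.rpow_def_of_pos (by linarith), ← Real.exp_add, Real.exp_le_exp,
    Real.log_prod (fun l _ => (radR_pos _).ne')]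
  have g1 : ∀ n : ℕ, Real.log (rad n) ≤ ∑ p ∈ n.primeFactors \ S, Real.log p + sS := by
    intro n
    unfold rad
    rw [Nat.cast_prod, Real.log_prod (fun p hp => by
      exact_mod_cast (Nat.prime_of_mem_primeFactors hp).ne_zero),
      ← Finset.sum_sdiff (Finset.inter_subset_left (s₂ := S)), Finset.sdiff_inter_self_left]
    exact add_le_add le_rfl (Finset.sum_le_sum_of_subset_of_nonneg Finset.inter_subset_right
      fun p _ _ => Real.log_natCast_nonneg p)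
  have g2 := Finset.sum_le_sum fun l (_ : l ∈ univ) =>
    g1 (LL (fun l => (α l).1) (fun l => (α l).2) l P).natAbs
  rw [Finset.sum_add_distrib, Finset.sum_const, card_univ, Fintype.card_fin, nsmul_eq_mul] at g2
  have g3 := le_abs_self (q * sS - C)
  have g4 := mul_le_mul_of_nonneg_left (min_le_left κ (4 / 5)) hl
  have g5 : (∑ l, ∑ p ∈ (LL (fun l => (α l).1) (fun l => (α l).2) l P).natAbs.primeFactors \ S,
    Real.log p) + C < ((q : ℝ) - κ) * Real.log (HH P : ℝ) := h5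
  nlinarith

end Pool.Agent.H255Z.Abc
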